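import Pool.Agent.MWV.Stmts

/-!
# MWV, row FCB: no exchange of lights
-/

set_option autoImplicit false

namespace Pool.Agent.MWV.H51

open Pool.Agent.Helper14_MV Pool.Agent.Helper2_MV Pool.Agent.MWV

section cr
variable (g : ℕ → Bool)

theorem cr_head : ∀ k, ∃ r, cr g [] 0 k = 1 :: r
  | 0 => ⟨[], rfl⟩
  | k + 1 => by
    obtain ⟨r, hr⟩ := cr_head k
    refine ⟨r ++ (mk g (k + 1) ++ ([] ++ [3 * (0 + (k + 1)) + 1])), ?_⟩
    rw [cr, hr, List.cons_append]

theorem mk_mem {j a : ℕ} (h : a ∈ mk g j) : a % 3 = 0 := by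
  unfold mk at h
  split at h
  · rw [List.mem_singleton] at h
    omega
  · exact absurd h List.not_mem_nil

theorem cr_mem : ∀ (k : ℕ) {a : ℕ}, a ∈ cr g [] 0 k → a % 3 = 0 ∨ ∃ e ≤ k, a = 3 * e + 1
  | 0, a, h => by
    rw [cr, List.mem_singleton] at h
    exact Or.inr ⟨0, le_refl _, h⟩
  | k + 1, a, h => by
    rw [cr, List.mem_append, List.mem_append, List.nil_append, List.mem_singleton] at h
    rcases h with h | h | h
    · rcases cr_mem k h with h' | ⟨e, he, h'⟩
      · exact Or.inl h'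
      · exact Or.inr ⟨e, by omega, h'⟩
    · exact Or.inl (mk_mem g h)
    · exact Or.inr ⟨k + 1, le_refl _, by omega⟩

theorem cr_cnt : ∀ (k e : ℕ), e ≤ k → (cr g [] 0 k).count (3 * e + 1) = 1
  | 0, e, h => by
    have : e = 0 := by omega
    subst this
    rfl
  | k + 1, e, h => by
    have h1 : (mk g (k + 1)).count (3 * e + 1) = 0 := List.count_eq_zero.2 (fun hm => by
      have := mk_mem g hm
      omega)
    rw [cr, List.count_append, List.count_append, List.nil_append, h1]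
    by_cases he : e = k + 1
    · subst he
      have h2 : (cr g [] 0 k).count (3 * (k + 1) + 1) = 0 := List.count_eq_zero.2 (fun hm => by
        rcases cr_mem g k hm with h' | ⟨e, he, h'⟩
        · omega
        · omega)
      rw [h2, Nat.zero_add (k + 1), List.count_singleton_self]
    · rw [cr_cnt k e (by omega), List.count_singleton]
      have : (3 * (0 + (k + 1)) + 1 == 3 * e + 1) = false := by
        rw [beq_eq_false_iff_ne]
        omega
      rw [this]
      rfl

theorem cr_last {k : ℕ} (hk : 1 ≤ k) : ∃ r, cr g [] 0 k = r ++ [3 * k + 1] := by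
  obtain ⟨j, rfl⟩ : ∃ j, k = j + 1 := ⟨k - 1, by omega⟩
  refine ⟨cr g [] 0 j ++ mk g (j + 1), ?_⟩
  rw [cr, List.nil_append, List.append_assoc, Nat.zero_add (j + 1)]

end cr

/-- the context -/
theorem ctx {N : ℕ} {S : List ℕ → List ℕ → Prop} (hW : Wo N S) {u v : List ℕ} (A B : List ℕ)
    (h : S u v) : S (A ++ (u ++ B)) (A ++ (v ++ B)) :=
  hW.app (hW.refl A) (hW.app h (hW.refl B))

theorem xx {N : ℕ} {S : List ℕ → List ℕ → Prop} (hH : HvyStmt) (hW : Wo N S) :
    S (X N 0 ++ X N 0) (X N 0) := by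
  refine hH N S hW _ _ ?_ ?_ ?_ ?_
  · intro a ha
    rw [List.mem_append, or_self] at ha
    rw [List.eq_of_mem_replicate ha]
  · intro a ha
    rw [List.eq_of_mem_replicate ha]
  · intro a
    rw [List.mem_append, or_self]
  · intro a
    rw [List.count_append, List.count_replicate]
    split
    · rw [Nat.add_mod_right]
    · rfl

theorem rig_use {N : ℕ} {S : List ℕ → List ℕ → Prop} {P Q : List ℕ} {g : ℕ → Bool} {k : ℕ}
    (hR : RigStmt) (hW : Wo N S) (hk : 1 ≤ k) (hF : Free N S k)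
    (hp : (P ++ Q).Perm (List.range (k + 1))) (hG : Gone g k) (m1 m2 : List ℕ)
    (hS : S (W P Q (X N 0 ++ (cr g [] 0 k ++ X N 0))) (W P Q (m1 ++ 0 :: m2)))
    (hc : ∀ a, a % 3 ≠ 0 → (m1 ++ 0 :: m2).count a = (cr g [] 0 k).count a)
    (hm : ∀ a ∈ m1 ++ m2, a ∈ X N 0 ++ cr g [] 0 k) (h1 : 1 ∈ m1) (h2 : 3 * k + 1 ∈ m2) :
    Run N S P Q g k := by
  refine hR N S P Q g k hW hk hF hp hG m1 m2 hS ⟨?_, ?_⟩ hm h1 h2
  · intro a ha
    have ha' : a = 0 ∨ a ∈ m1 ++ m2 := by
      rw [List.mem_append, List.mem_cons] at ha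
      rw [List.mem_append]
      tauto
    rcases ha' with ha' | ha'
    · left
      rw [ha']
    · rcases List.mem_append.1 (hm a ha') with h | h
      · left
        rw [List.eq_of_mem_replicate h]
      · rcases cr_mem g k h with h' | ⟨e, he, h'⟩
        · exact Or.inl h'
        · exact Or.inr ⟨e, hp.mem_iff.2 (List.mem_range.2 (by omega)), h'⟩
  · intro e he
    have he' : e < k + 1 := List.mem_range.1 (hp.mem_iff.1 he)
    rw [hc _ (by omega), cr_cnt g k e (by omega)]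

theorem cnt0 {n a : ℕ} (h : a % 3 ≠ 0) : (List.replicate n 0).count a = 0 :=
  List.count_eq_zero.2 (fun hm => h (by rw [List.eq_of_mem_replicate hm]))

/-- the first form of the instance -/
theorem use1 {N : ℕ} {S : List ℕ → List ℕ → Prop} {P Q : List ℕ} {g : ℕ → Bool} {k : ℕ}
    (hR : RigStmt) (hW : Wo N S) (hk : 1 ≤ k) (hF : Free N S k)
    (hp : (P ++ Q).Perm (List.range (k + 1))) (hG : Gone g k) {r : List ℕ}
    (hr : cr g [] 0 k = 1 :: r)
    (hS : S (W P Q (X N 0 ++ (cr g [] 0 k ++ X N 0)))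
      (W P Q (X N 0 ++ 1 :: (X N 0 ++ (r ++ X N 0))))) :
    Run N S P Q g k := by
  have hN := hW.pos
  obtain ⟨n, rfl⟩ : ∃ n, N = n + 1 := ⟨N - 1, by omega⟩
  have e : X (n + 1) 0 ++ 1 :: (X (n + 1) 0 ++ (r ++ X (n + 1) 0)) =
      (X (n + 1) 0 ++ 1 :: X n 0) ++ 0 :: (r ++ X (n + 1) 0) := by
    have aux : ∀ Y : List ℕ, X (n + 1) 0 ++ Y = X n 0 ++ 0 :: Y := fun Y => by
      rw [X, List.replicate_succ', List.append_assoc]
      rfl
    rw [aux (r ++ X (n + 1) 0), List.append_assoc, List.cons_append]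
  rw [e] at hS
  refine rig_use hR hW hk hF hp hG _ _ hS ?_ ?_ ?_ ?_
  · intro a ha
    have h0 : (0 : ℕ) ≠ a := fun h => ha (by rw [← h])
    rw [hr, List.count_append, List.count_append, List.count_cons_of_ne h0, List.count_append,
      cnt0 ha, Nat.zero_add, Nat.add_zero, List.count_cons, cnt0 ha, List.count_cons]
    omega
  · intro a ha
    rw [hr]
    simp only [List.mem_append, List.mem_cons] at ha ⊢
    rcases ha with (h | h | h) | h | h
    · exact Or.inl h
    · exact Or.inr (Or.inl h)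
    · left
      rw [List.mem_replicate] at h ⊢
      exact ⟨by omega, h.2⟩
    · exact Or.inr (Or.inr h)
    · exact Or.inl h
  · simp
  · have h1 : 3 * k + 1 ∈ cr g [] 0 k := List.count_pos_iff.1 (by
      rw [cr_cnt g k k (le_refl _)]
      exact Nat.one_pos)
    rw [hr, List.mem_cons] at h1
    rcases h1 with h1 | h1
    · omega
    · exact List.mem_append_left _ h1

/-- the second form of the instance -/
theorem use2 {N : ℕ} {S : List ℕ → List ℕ → Prop} {P Q : List ℕ} {g : ℕ → Bool} {k : ℕ}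
    (hR : RigStmt) (hW : Wo N S) (hk : 1 ≤ k) (hF : Free N S k)
    (hp : (P ++ Q).Perm (List.range (k + 1))) (hG : Gone g k) {r : List ℕ}
    (hr : cr g [] 0 k = r ++ [3 * k + 1])
    (hS : S (W P Q (X N 0 ++ (cr g [] 0 k ++ X N 0)))
      (W P Q (X N 0 ++ (r ++ (X N 0 ++ (3 * k + 1) :: X N 0))))) :
    Run N S P Q g k := by
  have hN := hW.pos
  obtain ⟨n, rfl⟩ : ∃ n, N = n + 1 := ⟨N - 1, by omega⟩
  have e : X (n + 1) 0 ++ (r ++ (X (n + 1) 0 ++ (3 * k + 1) :: X (n + 1) 0)) =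
      (X (n + 1) 0 ++ r) ++ 0 :: (X n 0 ++ (3 * k + 1) :: X (n + 1) 0) := by
    rw [List.append_assoc]
    rfl
  rw [e] at hS
  refine rig_use hR hW hk hF hp hG _ _ hS ?_ ?_ ?_ ?_
  · intro a ha
    have h0 : (0 : ℕ) ≠ a := fun h => ha (by rw [← h])
    rw [hr, List.count_append, List.count_append, List.count_cons_of_ne h0, List.count_append,
      cnt0 ha, cnt0 ha, Nat.zero_add, Nat.zero_add, List.count_cons, cnt0 ha,
      List.count_append, List.count_singleton]
    omega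
  · intro a ha
    rw [hr]
    simp only [List.mem_append, List.mem_cons] at ha ⊢
    rcases ha with (h | h) | h | h | h
    · exact Or.inl h
    · exact Or.inr (Or.inl h)
    · left
      rw [List.mem_replicate] at h ⊢
      exact ⟨by omega, h.2⟩
    · exact Or.inr (Or.inr (Or.inl h))
    · exact Or.inl h
  · have h1 : 1 ∈ cr g [] 0 k := by
      obtain ⟨r', hr'⟩ := cr_head g k
      rw [hr']
      exact List.mem_cons_self
    rw [hr, List.mem_append, List.mem_singleton] at h1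
    rcases h1 with h1 | h1
    · exact List.mem_append_right _ h1
    · omega
  · simp

/-- substitution of the letters `1, 4, 2, 5` -/
def f4 (a1 a4 a2 a5 : List ℕ) (a : ℕ) : List ℕ :=
  if a = 1 then a1 else if a = 4 then a4 else if a = 2 then a2 else if a = 5 then a5 else [a]

theorem sub4 {N : ℕ} {S : List ℕ → List ℕ → Prop} (hW : Wo N S) (a1 a4 a2 a5 : List ℕ)
    {u v : List ℕ} (h : S u v) :
    S (u.flatMap (f4 a1 a4 a2 a5)) (v.flatMap (f4 a1 a4 a2 a5)) := by
  refine hW.sub _ ?_ h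
  intro c hc a ha
  have h1 : c ≠ 1 := by omega
  have h4 : c ≠ 4 := by omega
  have h2 : c ≠ 2 := by omega
  have h5 : c ≠ 5 := by omega
  rw [f4, if_neg h1, if_neg h4, if_neg h2, if_neg h5, List.mem_singleton] at ha
  rw [ha]
  exact hc

theorem pl_app (A B : List ℕ) : pl (A ++ B) = pl A ++ pl B := List.flatMap_append
theorem pr_app (A B : List ℕ) : pr (A ++ B) = pr A ++ pr B := List.flatMap_append

/-- **FCB**. -/
theorem fcb (hH : HvyStmt) (hR : RigStmt) (_hE : EndStmt) : FcbStmt := by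
  intro N S P Q g k hW hk hF hp hG hRun hrr hll
  have hXX := xx hH hW
  obtain ⟨r, hr⟩ := cr_head g k
  obtain ⟨r', hr'⟩ := cr_last g hk
  have hmem : ∀ e, e ≤ k → e ∈ P ++ Q := fun e he =>
    hp.mem_iff.2 (List.mem_range.2 (by omega))
  refine ⟨?_, ?_, ?_⟩
  · -- SA
    intro hor hSA
    unfold SA at hSA
    rcases hor with hQ | hQ
    · obtain ⟨Q1, Q2, rfl⟩ := List.append_of_mem hQ
      have h := sub4 hW (X N 0) [1] r (5 :: pr Q1) hSA
      have e1 : ([1, 4, 2, 1, 5, 4] : List ℕ).flatMap (f4 (X N 0) [1] r (5 :: pr Q1)) =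
          X N 0 ++ ([1] ++ (r ++ (X N 0 ++ ((5 :: pr Q1) ++ [1])))) := by
        simp [f4, -List.replicate_append_replicate]
      have e2 : ([4, 1, 2, 1, 5, 4] : List ℕ).flatMap (f4 (X N 0) [1] r (5 :: pr Q1)) =
          [1] ++ (X N 0 ++ (r ++ (X N 0 ++ ((5 :: pr Q1) ++ [1])))) := by
        simp [f4, -List.replicate_append_replicate]
      rw [e1, e2] at h
      have h' := ctx hW (pl P ++ 2 :: X N 0) (8 :: pr Q2) h
      have epr : pr (Q1 ++ 0 :: Q2) = pr Q1 ++ (1 :: 8 :: pr Q2) := by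
        rw [pr_app]
        rfl
      have w1 : (pl P ++ 2 :: X N 0) ++ ((X N 0 ++ ([1] ++ (r ++ (X N 0 ++ ((5 :: pr Q1) ++ [1]))))) ++
          8 :: pr Q2) = (pl P ++ [2]) ++ ((X N 0 ++ X N 0) ++ (1 :: r ++ (X N 0 ++ 5 ::
            pr (Q1 ++ 0 :: Q2)))) := by
        rw [epr]
        simp [-List.replicate_append_replicate]
      have w2 : (pl P ++ 2 :: X N 0) ++ (([1] ++ (X N 0 ++ (r ++ (X N 0 ++ ((5 :: pr Q1) ++ [1]))))) ++
          8 :: pr Q2) = W P (Q1 ++ 0 :: Q2) (X N 0 ++ 1 :: (X N 0 ++ (r ++ X N 0))) := by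
        rw [W, epr]
        simp [-List.replicate_append_replicate]
      rw [w1, w2] at h'
      have h3 := ctx hW (pl P ++ [2]) (1 :: r ++ (X N 0 ++ 5 :: pr (Q1 ++ 0 :: Q2))) hXX
      have w3 : (pl P ++ [2]) ++ (X N 0 ++ (1 :: r ++ (X N 0 ++ 5 :: pr (Q1 ++ 0 :: Q2)))) =
          W P (Q1 ++ 0 :: Q2) (X N 0 ++ (cr g [] 0 k ++ X N 0)) := by
        rw [W, hr]
        simp [-List.replicate_append_replicate]
      rw [w3] at h3
      exact hRun (use1 hR hW hk hF hp hG hr (hW.trans (hW.symm h3) h'))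
    · apply hll
      refine ⟨fun _ => ?_, fun h => absurd hQ h⟩
      have h := sub4 hW (X N 0) [1] [] [2] hSA
      have e1 : ([1, 4, 2, 1, 5, 4] : List ℕ).flatMap (f4 (X N 0) [1] [] [2]) =
          X N 0 ++ 1 :: (X N 0 ++ [2, 1]) := by
        simp [f4, -List.replicate_append_replicate]
      have e2 : ([4, 1, 2, 1, 5, 4] : List ℕ).flatMap (f4 (X N 0) [1] [] [2]) =
          [1] ++ ((X N 0 ++ X N 0) ++ [2, 1]) := by
        simp [f4, -List.replicate_append_replicate]
      rw [e1, e2] at h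
      have h3 := ctx hW [1] [2, 1] hXX
      exact hW.symm (hW.trans h h3)
  · -- SM
    intro hSM
    unfold SM at hSM
    by_cases hQ : 0 ∈ Q
    · apply hrr
      refine ⟨fun _ => ?_, fun h => absurd hQ h⟩
      have h := sub4 hW (X N 0) [1] [] [2] hSM
      have e1 : ([1, 2, 1, 4, 5, 4] : List ℕ).flatMap (f4 (X N 0) [1] [] [2]) =
          [] ++ ((X N 0 ++ X N 0) ++ [1, 2, 1]) := by
        simp [f4, -List.replicate_append_replicate]
      have e2 : ([1, 2, 4, 1, 5, 4] : List ℕ).flatMap (f4 (X N 0) [1] [] [2]) =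
          X N 0 ++ 1 :: (X N 0 ++ [2, 1]) := by
        simp [f4, -List.replicate_append_replicate]
      rw [e1, e2] at h
      have h3 := ctx hW [] [1, 2, 1] hXX
      exact hW.trans (hW.symm h3) h
    · have hP : 0 ∈ P := by
        rcases List.mem_append.1 (hmem 0 (Nat.zero_le _)) with h | h
        · exact h
        · exact absurd h hQ
      obtain ⟨P1, P2, rfl⟩ := List.append_of_mem hP
      have h := sub4 hW [1] (X N 0) (pl P2 ++ 2 :: X N 0) r hSM
      have e1 : ([1, 2, 1, 4, 5, 4] : List ℕ).flatMap (f4 [1] (X N 0) (pl P2 ++ 2 :: X N 0) r) =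
          [1] ++ ((pl P2 ++ 2 :: X N 0) ++ ([1] ++ (X N 0 ++ (r ++ X N 0)))) := by
        simp [f4, -List.replicate_append_replicate]
      have e2 : ([1, 2, 4, 1, 5, 4] : List ℕ).flatMap (f4 [1] (X N 0) (pl P2 ++ 2 :: X N 0) r) =
          [1] ++ ((pl P2 ++ 2 :: X N 0) ++ (X N 0 ++ ([1] ++ (r ++ X N 0)))) := by
        simp [f4, -List.replicate_append_replicate]
      rw [e1, e2] at h
      have h' := ctx hW (pl P1 ++ [8]) (5 :: pr Q) h
      have epl : pl (P1 ++ 0 :: P2) = pl P1 ++ (8 :: 1 :: pl P2) := by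
        rw [pl_app]
        rfl
      have w1 : (pl P1 ++ [8]) ++ (([1] ++ ((pl P2 ++ 2 :: X N 0) ++ ([1] ++ (X N 0 ++
          (r ++ X N 0))))) ++ 5 :: pr Q) =
          W (P1 ++ 0 :: P2) Q (X N 0 ++ 1 :: (X N 0 ++ (r ++ X N 0))) := by
        rw [W, epl]
        simp [-List.replicate_append_replicate]
      have w2 : (pl P1 ++ [8]) ++ (([1] ++ ((pl P2 ++ 2 :: X N 0) ++ (X N 0 ++ ([1] ++
          (r ++ X N 0))))) ++ 5 :: pr Q) =
          (pl (P1 ++ 0 :: P2) ++ [2]) ++ ((X N 0 ++ X N 0) ++ (1 :: r ++ (X N 0 ++ 5 :: pr Q))) := by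
        rw [epl]
        simp [-List.replicate_append_replicate]
      rw [w1, w2] at h'
      have h3 := ctx hW (pl (P1 ++ 0 :: P2) ++ [2]) (1 :: r ++ (X N 0 ++ 5 :: pr Q)) hXX
      have w3 : (pl (P1 ++ 0 :: P2) ++ [2]) ++ (X N 0 ++ (1 :: r ++ (X N 0 ++ 5 :: pr Q))) =
          W (P1 ++ 0 :: P2) Q (X N 0 ++ (cr g [] 0 k ++ X N 0)) := by
        rw [W, hr]
        simp [-List.replicate_append_replicate]
      rw [w3] at h3
      exact hRun (use1 hR hW hk hF hp hG hr (hW.symm (hW.trans h' h3)))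
  · -- SB
    intro hor hSB
    unfold SB at hSB
    by_cases hkQ : k ∈ Q
    · have h0 : 0 ∉ Q := by
        rcases hor with h | h
        · exact h
        · exact absurd hkQ h
      apply hrr
      refine ⟨fun h => absurd h h0, fun _ => ?_⟩
      have h := sub4 hW [1] (X N 0) [2] [] hSB
      have e1 : ([1, 2, 4, 5, 1, 4] : List ℕ).flatMap (f4 [1] (X N 0) [2] []) =
          1 :: 2 :: (X N 0 ++ 1 :: X N 0) := by
        simp [f4, -List.replicate_append_replicate]
      have e2 : ([1, 2, 4, 5, 4, 1] : List ℕ).flatMap (f4 [1] (X N 0) [2] []) =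
          [1, 2] ++ ((X N 0 ++ X N 0) ++ [1]) := by
        simp [f4, -List.replicate_append_replicate]
      rw [e1, e2] at h
      have h3 := ctx hW [1, 2] [1] hXX
      exact hW.symm (hW.trans h h3)
    · have hP : k ∈ P := by
        rcases List.mem_append.1 (hmem k (le_refl _)) with h | h
        · exact h
        · exact absurd h hkQ
      obtain ⟨P1, P2, rfl⟩ := List.append_of_mem hP
      have h := sub4 hW [3 * k + 1] (X N 0) (pl P2 ++ [2]) r' hSB
      have e1 : ([1, 2, 4, 5, 1, 4] : List ℕ).flatMap (f4 [3 * k + 1] (X N 0) (pl P2 ++ [2]) r') =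
          [3 * k + 1] ++ ((pl P2 ++ [2]) ++ (X N 0 ++ (r' ++ ([3 * k + 1] ++ X N 0)))) := by
        simp [f4, -List.replicate_append_replicate]
      have e2 : ([1, 2, 4, 5, 4, 1] : List ℕ).flatMap (f4 [3 * k + 1] (X N 0) (pl P2 ++ [2]) r') =
          [3 * k + 1] ++ ((pl P2 ++ [2]) ++ (X N 0 ++ (r' ++ (X N 0 ++ [3 * k + 1])))) := by
        simp [f4, -List.replicate_append_replicate]
      rw [e1, e2] at h
      have h' := ctx hW (pl P1 ++ [3 * k + 8]) (X N 0 ++ 5 :: pr Q) h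
      have epl : pl (P1 ++ k :: P2) = pl P1 ++ ((3 * k + 8) :: (3 * k + 1) :: pl P2) := by
        rw [pl_app]
        rfl
      have w1 : (pl P1 ++ [3 * k + 8]) ++ (([3 * k + 1] ++ ((pl P2 ++ [2]) ++ (X N 0 ++ (r' ++
          ([3 * k + 1] ++ X N 0))))) ++ (X N 0 ++ 5 :: pr Q)) =
          (pl (P1 ++ k :: P2) ++ 2 :: (X N 0 ++ (r' ++ [3 * k + 1]))) ++ ((X N 0 ++ X N 0) ++
            5 :: pr Q) := by
        rw [epl]
        simp [-List.replicate_append_replicate]
      have w2 : (pl P1 ++ [3 * k + 8]) ++ (([3 * k + 1] ++ ((pl P2 ++ [2]) ++ (X N 0 ++ (r' ++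
          (X N 0 ++ [3 * k + 1]))))) ++ (X N 0 ++ 5 :: pr Q)) =
          W (P1 ++ k :: P2) Q (X N 0 ++ (r' ++ (X N 0 ++ (3 * k + 1) :: X N 0))) := by
        rw [W, epl]
        simp [-List.replicate_append_replicate]
      rw [w1, w2] at h'
      have h3 := ctx hW (pl (P1 ++ k :: P2) ++ 2 :: (X N 0 ++ (r' ++ [3 * k + 1]))) (5 :: pr Q) hXX
      have w3 : (pl (P1 ++ k :: P2) ++ 2 :: (X N 0 ++ (r' ++ [3 * k + 1]))) ++ (X N 0 ++
          5 :: pr Q) = W (P1 ++ k :: P2) Q (X N 0 ++ (cr g [] 0 k ++ X N 0)) := by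
        rw [W, hr']
        simp [-List.replicate_append_replicate]
      rw [w3] at h3
      exact hRun (use2 hR hW hk hF hp hG hr' (hW.trans (hW.symm h3) h'))

end Pool.Agent.MWV.H51
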