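import Pool.Agent.MWV.Stmts

/-!
# MWV, row PAR: position of a double letter with respect to a simple letter
-/

set_option autoImplicit false

namespace Pool.Agent.MWV.H51

open Pool.Agent.Helper14_MV Pool.Agent.Helper2_MV Pool.Agent.MWV

/-- the filter to two letters -/
abbrev f2 (a s : ℕ) (U : List ℕ) : List ℕ := U.filter (fun c => decide (c = a ∨ c = s))

theorem f2_left {a s : ℕ} : ∀ {U : List ℕ}, s ∉ U → f2 a s U = List.replicate (U.count a) a
  | [], _ => rfl
  | b :: U, h => by
    rw [List.mem_cons, not_or] at h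
    have ih := f2_left (a := a) h.2
    have hb : b ≠ s := fun e => h.1 e.symm
    rw [List.count_cons]
    by_cases hba : b = a
    · subst hba
      simp only [f2, List.filter_cons, true_or, decide_true, if_true, beq_self_eq_true]
      rw [List.replicate_succ]
      exact congrArg (List.cons b) ih
    · have e1 : (b == a) = false := by simpa using hba
      have e2 : decide (b = a ∨ b = s) = false := by simp [hba, hb]
      simp only [f2, List.filter_cons, e2, e1]
      exact ih

theorem f2_swap (a s : ℕ) (U : List ℕ) : f2 a s U = f2 s a U := by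
  apply List.filter_congr
  intro c _
  simp only [or_comm]

theorem f2_right {a s : ℕ} {U : List ℕ} (h : a ∉ U) :
    f2 a s U = List.replicate (U.count s) s := by
  rw [f2_swap]
  exact f2_left h

theorem f2_app (a s : ℕ) (U V : List ℕ) : f2 a s (U ++ V) = f2 a s U ++ f2 a s V :=
  List.filter_append ..

theorem f2_cons_in1 (a s : ℕ) (V : List ℕ) : f2 a s (a :: V) = a :: f2 a s V := by
  simp [f2]

theorem f2_cons_in2 (a s : ℕ) (V : List ℕ) : f2 a s (s :: V) = s :: f2 a s V := by
  simp [f2]

theorem f2_cons_out {a s b : ℕ} (h1 : b ≠ a) (h2 : b ≠ s) (V : List ℕ) :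
    f2 a s (b :: V) = f2 a s V := by
  simp [f2, h1, h2]

theorem split1 {U : List ℕ} {s : ℕ} (h : U.count s = 1) :
    ∃ U1 U2, U = U1 ++ s :: U2 ∧ s ∉ U1 ∧ s ∉ U2 := by
  have hm : s ∈ U := List.count_pos_iff.1 (by omega)
  obtain ⟨U1, U2, rfl⟩ := List.append_of_mem hm
  rw [List.count_append, List.count_cons_self] at h
  exact ⟨U1, U2, rfl, List.count_eq_zero.1 (by omega), List.count_eq_zero.1 (by omega)⟩

theorem f2_split {U1 U2 : List ℕ} {a s : ℕ} (h1 : s ∉ U1) (h2 : s ∉ U2) :
    f2 a s (U1 ++ s :: U2) =
      List.replicate (U1.count a) a ++ s :: List.replicate (U2.count a) a := by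
  rw [f2_app, f2_cons_in2, f2_left h1, f2_left h2]

theorem cnt_f2 {a s : ℕ} (U : List ℕ) : (f2 a s U).count a = U.count a := by
  unfold f2
  rw [List.count_filter]
  simp

theorem bad {N : ℕ} {S : List ℕ → List ℕ → Prop} (hN : NisStmt) (hW : Wo N S)
    {U V : List ℕ} {a s t : ℕ} (hS : S U V) (ha : a % 3 ≠ 0) (hs : s % 3 ≠ 0) (ht : t % 3 ≠ 0)
    (has : a ≠ s) (hat : a ≠ t) (hst : s ≠ t) (us : U.count s = 1) (ut : U.count t = 1)
    (vs : V.count s = 1) (hU : f2 a t U = [a, t, a]) (hV : f2 a t V = [a, t, a])
    (hU2 : f2 a s U = [s, a, a]) (hV2 : f2 a s V = [a, a, s]) : False := by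
  obtain ⟨h1, h2, h3, h4⟩ := hN N S hW
  obtain ⟨U1, U2, rfl, u1, u2⟩ := split1 us
  obtain ⟨V1, V2, rfl, v1, v2⟩ := split1 vs
  have aU1 : U1.count a = 0 := by
    rw [f2_split u1 u2] at hU2
    rcases hc : U1.count a with _ | k
    · rfl
    · rw [hc, List.replicate_succ, List.cons_append] at hU2
      exact absurd (List.cons.inj hU2).1 has
  have tU1 : U1.count t = 0 := by
    rw [f2_app, f2_cons_out (fun e => has e.symm) hst,
      f2_right (List.count_eq_zero.1 aU1)] at hU
    rcases hc : U1.count t with _ | k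
    · rfl
    · rw [hc, List.replicate_succ, List.cons_append] at hU
      exact absurd (List.cons.inj hU).1 (fun e => hat e.symm)
  have tU2 : U2.count t = 1 := by
    rw [List.count_append, List.count_cons_of_ne hst, tU1] at ut
    omega
  have e1 : f2 s t (U1 ++ s :: U2) = [s, t] := by
    rw [f2_app, f2_cons_in1, f2_right u1, f2_right u2, tU1, tU2]
    rfl
  have h5 : S (f2 s t (U1 ++ s :: U2)) (f2 s t (V1 ++ s :: V2)) := h1 _ _ _ hS
  rw [e1] at h5
  have e2 : f2 s t (V1 ++ s :: V2) = [s, t] := (h2 s t hs ht hst _).2.1 h5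
  rw [f2_app, f2_cons_in1, f2_right v1, f2_right v2] at e2
  have tV1 : V1.count t = 0 := by
    rcases hc : V1.count t with _ | k
    · rfl
    · rw [hc, List.replicate_succ, List.cons_append] at e2
      exact absurd (List.cons.inj e2).1 (fun e => hst e.symm)
  have tV2 : V2.count t = 1 := by
    rw [tV1] at e2
    have := congrArg List.length e2
    simp at this
    exact this
  rw [f2_split v1 v2] at hV2
  have aV : V1.count a = 2 ∧ V2.count a = 0 := by
    have hl := congrArg List.length hV2
    simp at hl
    rcases hc : V1.count a with _ | _ | _ | k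
    · rw [hc] at hV2
      exact absurd (List.cons.inj hV2).1 (fun e => has e.symm)
    · rw [hc] at hV2
      exact absurd (List.cons.inj (List.cons.inj hV2).2).1 (fun e => has e.symm)
    · exact ⟨by omega, by omega⟩
    · exfalso
      omega
  rw [f2_app, f2_cons_out (fun e => has e.symm) hst, f2_left (List.count_eq_zero.1 tV1),
    f2_right (List.count_eq_zero.1 aV.2), aV.1, tV2] at hV
  exact hat (List.cons.inj (List.cons.inj hV).2).1

theorem three {U : List ℕ} {a s : ℕ} (us : U.count s = 1) (ua : U.count a = 2) :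
    f2 a s U = [a, s, a] ∨ f2 a s U = [s, a, a] ∨ f2 a s U = [a, a, s] := by
  obtain ⟨U1, U2, rfl, u1, u2⟩ := split1 us
  rw [f2_split u1 u2]
  by_cases has : s = a
  · exfalso
    subst has
    omega
  · rw [List.count_append, List.count_cons_of_ne has] at ua
    rcases hc : U1.count a with _ | _ | _ | k
    · rw [hc] at ua
      have : U2.count a = 2 := by omega
      rw [this]
      exact Or.inr (Or.inl rfl)
    · rw [hc] at ua
      have : U2.count a = 1 := by omega
      rw [this]
      exact Or.inl rfl
    · rw [hc] at ua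
      have : U2.count a = 0 := by omega
      rw [this]
      exact Or.inr (Or.inr rfl)
    · rw [hc] at ua
      exfalso
      omega

/-- **PAR**. -/
theorem par (hN : NisStmt) : ParStmt := by
  intro N S hW U V a s t hS ha hs ht has hat us ut hU
  change f2 a t U = [a, t, a] at hU
  change f2 a s V = f2 a s U
  obtain ⟨h1, h2, h3, h4⟩ := hN N S hW
  have h5 : S (f2 a t U) (f2 a t V) := h1 _ _ _ hS
  rw [hU] at h5
  have hV : f2 a t V = [a, t, a] := (h2 a t ha ht hat _).1 h5
  by_cases hst : s = t
  · subst hst
    rw [hU, hV]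
  · have vs : V.count s = 1 := (h4 U V s hs hS).1 us
    have vt : V.count t = 1 := (h4 U V t ht hS).1 ut
    have c2 : ([a, t, a] : List ℕ).count a = 2 := by
      rw [List.count_cons_self, List.count_cons_of_ne (fun e => hat e.symm),
        List.count_cons_self]
      rfl
    have ua : U.count a = 2 := by
      rw [← cnt_f2 (a := a) (s := t) U, hU, c2]
    have va : V.count a = 2 := by
      rw [← cnt_f2 (a := a) (s := t) V, hV, c2]
    have h6 : S (f2 a s U) (f2 a s V) := h1 _ _ _ hS
    rcases three us ua with hu | hu | hu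
    · rw [hu] at h6 ⊢
      exact (h2 a s ha hs has _).1 h6
    · rcases three vs va with hv | hv | hv
      · rw [hv] at h6 ⊢
        exact ((h2 a s ha hs has _).1 (hW.symm h6)).symm
      · rw [hu, hv]
      · exact (bad hN hW hS ha hs ht has hat hst us ut vs hU hV hu hv).elim
    · rcases three vs va with hv | hv | hv
      · rw [hv] at h6 ⊢
        exact ((h2 a s ha hs has _).1 (hW.symm h6)).symm
      · exact (bad hN hW (hW.symm hS) ha hs ht has hat hst vs vt us hV hU hv hu).elim
      · rw [hu, hv]

end Pool.Agent.MWV.H51
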